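import Pool.Agent.H14.MMS56

/-!
Maximin shares with additive valuations: an instance with five agents and thirteen goods in which no
allocation gives every agent more than `21/22` of her maximin share, and an instance with
six agents and fifteen goods in which no allocation gives every agent more than `24/25` of
her maximin share.
-/

set_option autoImplicit false

namespace Pool.Agent.Results.MP_5049a2_lc.FiveSixAgents

open Pool.Agent.Results.MP_5049a2_lc.FourAgents
open Pool.Agent.H14.MMS56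

/-- Five agents: the values of the thirteen goods for agents 0, 1, 2 (first component) and for
agents 3 and 4 (second component). -/
def goods5 : Fin 13 → ℕ × ℕ :=
  ![(20, 18), (18, 17), (12, 13), (12, 13), (10, 12), (8, 7), (8, 7),
    (6, 6), (5, 4), (5, 3), (4, 3), (1, 1), (1, 1)]

theorem goods5_check : check5 22 21 (List.ofFn goods5) 110 105 1 0 1 0 = true := by
  decide +kernel

theorem no_alloc5 (A : Fin 13 → Fin 5) :
    ¬ (22 ≤ (∑ g, if A g = 0 then (goods5 g).1 else 0) ∧
      22 ≤ (∑ g, if A g = 1 then (goods5 g).1 else 0) ∧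
      22 ≤ (∑ g, if A g = 2 then (goods5 g).1 else 0) ∧
      21 ≤ (∑ g, if A g = 3 then (goods5 g).2 else 0) ∧
      21 ≤ (∑ g, if A g = 4 then (goods5 g).2 else 0)) := by
  have h := check5_sound 22 21 (List.ofFn fun g => (goods5 g, A g)) 110 105 1 0 1 0
    (by rw [tot_ofFn]; show ∑ g, (goods5 g).1 ≤ 110; decide +kernel)
    (by rw [tot_ofFn]; show ∑ g, (goods5 g).2 ≤ 105; decide +kernel)
    (by rw [List.map_ofFn]; exact goods5_check) 0 0 0 0 0 (by decide) rfl (by decide) rfl
  simp only [sumF_ofFn, zero_add] at h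
  exact h

/-- The valuations of the five agents. -/
noncomputable def val5 (i : Fin 5) (g : Fin 13) : ℝ :=
  if decide (i < 3) = true then ((goods5 g).1 : ℝ) else ((goods5 g).2 : ℝ)

theorem val5_pos (i : Fin 5) (g : Fin 13) : 0 < val5 i g := by
  have h : ∀ g : Fin 13, 0 < (goods5 g).1 ∧ 0 < (goods5 g).2 := by decide +kernel
  unfold val5
  split_ifs
  · exact_mod_cast (h g).1
  · exact_mod_cast (h g).2

theorem val5_no (α : ℝ) (hα : 21 / 22 < α) (A : Fin 13 → Fin 5) :
    ¬ IsAlphaMMS α val5 A := by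
  refine no_of (fun i : Fin 5 => decide (i < 3)) (fun g => (goods5 g).1) (fun g => (goods5 g).2)
    22 22 21 21 ![0, 1, 2, 3, 2, 4, 4, 4, 3, 3, 1, 0, 0]
    ![0, 1, 2, 3, 4, 2, 3, 4, 1, 0, 4, 2, 3] (by decide +kernel) (by decide +kernel)
    (by norm_num) (by norm_num) (by norm_num) (by norm_num) A ?_ α ?_ ?_
  · intro h
    exact no_alloc5 A ⟨h 0, h 1, h 2, h 3, h 4⟩
  · refine lt_of_le_of_lt ?_ hα
    norm_num
  · refine lt_of_le_of_lt ?_ hα
    norm_num

/-- Six agents: the values of the fifteen goods for agents 0, 1, 2 (first component) and for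
agents 3, 4 and 5 (second component). -/
def goods6 : Fin 15 → ℕ × ℕ :=
  ![(23, 22), (21, 21), (14, 16), (14, 16), (13, 15), (11, 14), (11, 10), (9, 8),
    (9, 8), (7, 7), (6, 4), (6, 4), (4, 3), (1, 1), (1, 1)]

theorem goods6_check : check6 25 25 (List.ofFn goods6) 150 150 1 0 1 0 = true := by
  decide +kernel

theorem no_alloc6 (A : Fin 15 → Fin 6) :
    ¬ (25 ≤ (∑ g, if A g = 0 then (goods6 g).1 else 0) ∧
      25 ≤ (∑ g, if A g = 1 then (goods6 g).1 else 0) ∧
      25 ≤ (∑ g, if A g = 2 then (goods6 g).1 else 0) ∧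
      25 ≤ (∑ g, if A g = 3 then (goods6 g).2 else 0) ∧
      25 ≤ (∑ g, if A g = 4 then (goods6 g).2 else 0) ∧
      25 ≤ (∑ g, if A g = 5 then (goods6 g).2 else 0)) := by
  have h := check6_sound 25 25 (List.ofFn fun g => (goods6 g, A g)) 150 150 1 0 1 0
    (by rw [tot_ofFn]; show ∑ g, (goods6 g).1 ≤ 150; decide +kernel)
    (by rw [tot_ofFn]; show ∑ g, (goods6 g).2 ≤ 150; decide +kernel)
    (by rw [List.map_ofFn]; exact goods6_check) 0 0 0 0 0 0 (by decide) rfl (by decide) rfl
  simp only [sumF_ofFn, zero_add] at h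
  exact h

/-- The valuations of the six agents. -/
noncomputable def val6 (i : Fin 6) (g : Fin 15) : ℝ :=
  if decide (i < 3) = true then ((goods6 g).1 : ℝ) else ((goods6 g).2 : ℝ)

theorem val6_pos (i : Fin 6) (g : Fin 15) : 0 < val6 i g := by
  have h : ∀ g : Fin 15, 0 < (goods6 g).1 ∧ 0 < (goods6 g).2 := by decide +kernel
  unfold val6
  split_ifs
  · exact_mod_cast (h g).1
  · exact_mod_cast (h g).2

theorem val6_no (α : ℝ) (hα : 24 / 25 < α) (A : Fin 15 → Fin 6) :
    ¬ IsAlphaMMS α val6 A := by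
  refine no_of (fun i : Fin 6 => decide (i < 3)) (fun g => (goods6 g).1) (fun g => (goods6 g).2)
    25 25 25 25 ![0, 1, 2, 3, 4, 2, 3, 5, 5, 5, 4, 4, 1, 0, 0]
    ![0, 1, 2, 3, 4, 5, 4, 2, 3, 5, 1, 5, 0, 2, 3] (by decide +kernel) (by decide +kernel)
    (by norm_num) (by norm_num) (by norm_num) (by norm_num) A ?_ α ?_ ?_
  · intro h
    exact no_alloc6 A ⟨h 0, h 1, h 2, h 3, h 4, h 5⟩
  · refine lt_of_le_of_lt ?_ hα
    norm_num
  · refine lt_of_le_of_lt ?_ hα
    norm_num

/-- There is an additive instance with five agents and thirteen goods (all values positive) such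
that for every `α > 21/22` no allocation is `α`-MMS, and one with six agents and fifteen
goods such that for every `α > 24/25` no allocation is `α`-MMS. Hence
`α*(5) ≤ 21/22` and `α*(6) ≤ 24/25`. -/
theorem result :
    (∃ v : Fin 5 → Fin 13 → ℝ, (∀ i g, 0 < v i g) ∧
      ∀ α : ℝ, 21 / 22 < α → ∀ A : Fin 13 → Fin 5, ¬ IsAlphaMMS α v A) ∧
    (∃ v : Fin 6 → Fin 15 → ℝ, (∀ i g, 0 < v i g) ∧
      ∀ α : ℝ, 24 / 25 < α → ∀ A : Fin 15 → Fin 6, ¬ IsAlphaMMS α v A) ∧
    alphaStar 5 ≤ 21 / 22 ∧ alphaStar 6 ≤ 24 / 25 :=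
  ⟨⟨val5, val5_pos, val5_no⟩, ⟨val6, val6_pos, val6_no⟩,
    alphaStar_le val5 (fun i g => (val5_pos i g).le) _ (by norm_num) val5_no,
    alphaStar_le val6 (fun i g => (val6_pos i g).le) _ (by norm_num) val6_no⟩

end Pool.Agent.Results.MP_5049a2_lc.FiveSixAgents
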